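import Pool.Agent.helper8.T7.SpecSM

set_option autoImplicit false

/-!
# Row `t7:SMU` (MP_16912e_nt): the labels of one field
-/

namespace Pool.Agent.T7

open Finset NumberField Pool.Agent.helper3.FT Pool.Agent.helper47.RA Pool.Agent.T5 Pool.Agent.T6 Pool.Agent.T6L
open Pool.Agent.helper26.T5 (nn LEMB LPR LAW LP LPA HLN HPR HSQ HID HCL HGA)

/-- a unit is `1` or `-1` (copy of `AGEX_unit`) -/
theorem SMU_unit {K : Type} [Field K] [NumberField K] (Q : QF K) (hD : Q.D < -4)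
    (e : 𝓞 K) (he : IsUnit e) : e = 1 ∨ e = -1 := by
  obtain ⟨x, hx⟩ := Q.exists_re e
  generalize Q.Y e = y at hx
  have hN : e * Q.cj e = ((x ^ 2 + Q.t * x * y - Q.k * y ^ 2 : ℤ) : 𝓞 K) := by
    rw [hx, Q.norm_form]
  have h1 := Q.absNorm_eq e _ hN
  have h2 : Ideal.span {e} = (⊤ : Ideal (𝓞 K)) := Ideal.span_singleton_eq_top.2 he
  rw [h2, Ideal.absNorm_top] at h1
  have h3 : x ^ 2 + Q.t * x * y - Q.k * y ^ 2 = 1 ∨ x ^ 2 + Q.t * x * y - Q.k * y ^ 2 = -1 := by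
    have h4 : |x ^ 2 + Q.t * x * y - Q.k * y ^ 2| = 1 := by
      rw [← h1]
      norm_num
    rcases abs_choice (x ^ 2 + Q.t * x * y - Q.k * y ^ 2) with h5 | h5
    · left; rw [← h5, h4]
    · right; rw [h5] at h4; linarith
  have ht : Q.t ^ 2 = Q.t := Q.t_sq
  have h6 : 4 * (x ^ 2 + Q.t * x * y - Q.k * y ^ 2) = (2 * x + Q.t * y) ^ 2 - Q.D * y ^ 2 := by
    rw [Q.hk]
    linear_combination (-y ^ 2) * ht
  have hy : y = 0 := by
    by_contra hy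
    have h7 : 1 ≤ y ^ 2 := by
      have : 0 < y ^ 2 := by positivity
      linarith
    have h8 : 4 < (-Q.D) * y ^ 2 := by nlinarith
    have h9 := sq_nonneg (2 * x + Q.t * y)
    rcases h3 with h3 | h3 <;> rw [h3] at h6 <;> linarith
  subst hy
  have h10 : x ^ 2 = 1 := by
    rcases h3 with h3 | h3
    · linarith [h3]
    · have := sq_nonneg x
      nlinarith
  have h11 : x = 1 ∨ x = -1 := by
    have : (x - 1) * (x + 1) = 0 := by linear_combination h10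
    rcases mul_eq_zero.1 this with h | h
    · left; linarith
    · right; linarith
  rcases h11 with h | h
  · left; rw [hx, h]; simp
  · right; rw [hx, h]; simp

theorem SMU_fin (K : Type) [Field K] [NumberField K] (Y : ℝ) : (IA K Y).Finite := by
  apply (Ideal.finite_setOfPred_absNorm_le (S := 𝓞 K) ⌊Y⌋₊).subset
  intro a ha
  have h := ha.2.2.2.2.2
  exact Nat.le_floor h

/-- the ideal of a label -/
theorem SMU_key (hASUR : ASUR_stmt) (hADFA : ADFA_stmt) (hAPPR : APPR_stmt)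
    (K : Type) [Field K] [NumberField K] (Q : QF K) (Y : ℝ) (hD4 : Q.D < -4) (h4Y : 4 * Y < -(Q.D : ℝ)) (hY : 2 ≤ Y)
    (t : Tpl) (p : ℕ) (pp : p.Prime) (tt : IsT t) (z1 : Y / 2 < t.2.2.2) (z2 : (t.2.2.2 : ℝ) ≤ Y)
    (l1 : 0 < lam t) (ds : dis t = Q.D * (p : ℤ) ^ 2) (rg : ¬ (p : ℤ) ∣ t.2.2.2 * lam t) :
    ∃ a : Ideal (𝓞 K), a ∈ IA K Y ∧ ∃ F : Full Q, F.a = a ∧ t.2.2.2 = (Ideal.absNorm a : ℤ) ∧
      Q.Y F.α = p * RR t := by
  have hz1 : (1 : ℝ) < (t.2.2.2 : ℝ) := by linarith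
  have hz0 : 0 < t.2.2.2 := by
    have h : (0 : ℝ) < (t.2.2.2 : ℝ) := by linarith
    exact_mod_cast h
  obtain ⟨a, α, γ, hDat⟩ := hASUR K Q p t tt pp.one_lt.le ds hz0 l1 (fun q hq hqp => by
    have h : q = p := (Nat.prime_dvd_prime_iff_eq hq pp).1 hqp
    subst h
    exact ⟨fun h => rg (dvd_mul_of_dvd_left h _), fun h => rg (dvd_mul_of_dvd_right h _)⟩)
  obtain ⟨ha, hprim, h5, -⟩ := hADFA K Q (by linarith : Q.D < 0) a α γ p t hDat
  obtain ⟨F, hFa, -, -, -, -, -, -, hα, -⟩ := hDat.full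
  have hz := hDat.z
  have hzr : (t.2.2.2 : ℝ) = (Ideal.absNorm a : ℝ) := by
    rw [hz]
    norm_cast
  refine ⟨a, ⟨ha, hprim, h5, ?_, ?_, ?_⟩, F, hFa, hz, hα⟩
  · intro hpr
    have h1 := hAPPR K Q a ha hprim hpr (by
      have h2 : (4 : ℝ) * (Ideal.absNorm a : ℝ) < -(Q.D : ℝ) := by
        rw [← hzr]; linarith
      exact_mod_cast h2)
    rw [h1] at hzr
    norm_num at hzr
    rw [hzr] at hz1
    norm_num at hz1
  · rw [← hzr]; exact z1
  · rw [← hzr]; exact z2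

/-- the ideal determines the label -/
theorem SMU_inj (K : Type) [Field K] [NumberField K] (Q : QF K) (hD4 : Q.D < -4) (F F' : Full Q) (h : F.a = F'.a) :
    |Q.Y F.α| = |Q.Y F'.α| := by
  have h1 : Ideal.span {F.α} = Ideal.span {F'.α} := by
    rw [F.iα, F'.iα, h]
  obtain ⟨u, hu⟩ := Ideal.span_singleton_eq_span_singleton.1 h1
  rcases SMU_unit Q hD4 u u.isUnit with hh | hh
  · rw [← hu, hh, mul_one]
  · have e : F.α * (u : 𝓞 K) = ((-1 : ℤ) : 𝓞 K) * F.α := by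
      rw [hh]
      push_cast
      ring
    rw [← hu, e, Q.Y_int_mul, neg_one_mul, abs_neg]

theorem SMU (hASUR : ASUR_stmt) (hADFA : ADFA_stmt) (hAPPR : APPR_stmt) : SMU_stmt := by
  intro K _ _ Q Y hD4 h4Y hY L hL
  have key : ∀ x : ℤ × ℤ, ∃ a : Ideal (𝓞 K), x ∈ L → a ∈ IA K Y ∧ ∃ (t : Tpl) (p : ℕ) (F : Full Q), F.a = a ∧
      t.2.2.2 = (Ideal.absNorm a : ℤ) ∧ Q.Y F.α = p * RR t ∧ lb p t = x := by
    intro x
    by_cases hx : x ∈ L
    · obtain ⟨t, p, pp, tt, z1, z2, l1, ds, rg, hlb⟩ := hL x hx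
      obtain ⟨a, ha, F, hFa, hz, hα⟩ := SMU_key hASUR hADFA hAPPR K Q Y hD4 h4Y hY t p pp tt z1 z2 l1 ds rg
      exact ⟨a, fun _ => ⟨ha, t, p, F, hFa, hz, hα, hlb⟩⟩
    · exact ⟨⊥, fun h => absurd h hx⟩
  choose f hf using key
  rw [← Set.ncard_coe_finset L]
  refine Set.ncard_le_ncard_of_injOn f (fun x hx => (hf x hx).1) ?_ (SMU_fin K Y)
  intro x hx y hy hxy
  obtain ⟨-, t, p, F, hFa, hz, hα, hlb⟩ := hf x hx
  obtain ⟨-, t', p', F', hFa', hz', hα', hlb'⟩ := hf y hy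
  have hF : F.a = F'.a := by rw [hFa, hFa', hxy]
  have h1 := SMU_inj K Q hD4 F F' hF
  rw [hα, hα'] at h1
  have h2 : t.2.2.2 = t'.2.2.2 := by rw [hz, hz', hxy]
  rw [← hlb, ← hlb']
  unfold lb
  rw [h1, h2]

end Pool.Agent.T7
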